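import Pool.Agent.Helper639.InsG

open Cardinal Pool.Agent.Helper639.InsG

namespace Pool.Agent.Results.MP_32433e_gt.CpClosures

/-- There is a compact Hausdorff space `X` which is not Gul'ko compact although the closure in
`C_p(X)` of every subset of `C_p(X)` of size at most continuum is a Lindelof Sigma space. -/
theorem result : ∃ (X : Type) (_ : TopologicalSpace X), CompactSpace X ∧ T2Space X ∧
    ¬ LindelofSigma (Cp X) ∧
    ∀ A : Set (Cp X), #A ≤ continuum → LindelofSigma (closure A) := by
  obtain ⟨X, i, h1, h2, h3, -, h5⟩ := main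
  exact ⟨X, i, h1, h2, h3, h5⟩

end Pool.Agent.Results.MP_32433e_gt.CpClosures
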